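import Mathlib
import Pool.Agent.Helper53K9.PP.Neg

/-!
# Products of countably pracompact paratopological groups

In ZFC there are Hausdorff countably pracompact commutative paratopological groups `G` and `H`
whose product is not countably pracompact. Hence countable pracompactness of paratopological
groups is not preserved by any product with at least two factors: for every index set `ι` with at
least two elements there is a family of Hausdorff countably pracompact commutative paratopological
groups indexed by `ι` whose product is not countably pracompact.

Construction. Let `B` be the countable Boolean group, `T` a compact Boolean group which contains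
its Bohr compactification, and let `A` be the set of the linearly independent sequences in `B`. By
transfinite recursion of length continuum choose for every `a ∈ A` two limits `x_a`, `y_a ∈ T` of
`a` along free ultrafilters, each avoiding the at most continuum many points by which a pair of
independent sequences `(b, b')` could get a common limit in (span of `B` and the `x`'s) ×
(span of `B` and the `y`'s). Let `ht : ℝ/ℤ → ℝ` be an additive map which is unbounded from above
on every nonempty open set. Then `G = ℝ/ℤ × B × (ℤ/2)^{(A)}`, where a basic neighbourhood of `0`
consists of `0` and the `(t, b, c)` for which `t` is close to `0`, `b + Σ_{a ∈ supp c} x_a` is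
close to `0`, and `N + Σ_{a ∈ supp c} h(a) ≤ ht t`, where `N ∈ ℕ` and `h : A → ℕ` are arbitrary.
The group `H` is defined in the same way from the `y_a`.
-/

set_option autoImplicit false

open Topology

namespace Pool.Agent.Results.MP_6a90e0_al.ProductsFail

/-- A topological space `X` is countably pracompact if there is a dense set `D` such that every
infinite subset `B` of `D` has an accumulation point in `X`, that is, a point every neighbourhood
of which contains infinitely many points of `B`. -/
def CountablyPracompact (X : Type*) [TopologicalSpace X] : Prop :=
  ∃ D : Set X, Dense D ∧ ∀ B ⊆ D, B.Infinite → ∃ x, ∀ U ∈ 𝓝 x, (U ∩ B).Infinite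

theorem CountablyPracompact.image {X Y : Type*} [TopologicalSpace X] [TopologicalSpace Y]
    (h : CountablyPracompact X) (f : X → Y) (hf : Continuous f) (hs : Function.Surjective f) :
    CountablyPracompact Y := by
  obtain ⟨D, hD, hacc⟩ := h
  refine ⟨f '' D, hs.denseRange.dense_image hf hD, fun E hE hinf => ?_⟩
  have h1 : ∀ e : E, ∃ d ∈ D, f d = e := fun e => hE e.2
  choose g hgD hg using h1
  have hginj : Function.Injective g := by
    intro e e' h
    apply Subtype.ext
    rw [← hg e, ← hg e', h]
  have : Infinite E := hinf.to_subtype
  obtain ⟨x, hx⟩ := hacc (Set.range g) (by rintro _ ⟨e, rfl⟩; exact hgD e)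
    (Set.infinite_range_of_injective hginj)
  refine ⟨f x, fun O hO => ?_⟩
  have h2 := hx _ (hf.continuousAt hO)
  have h3 : Set.InjOn f (f ⁻¹' O ∩ Set.range g) := by
    rintro _ ⟨-, e, rfl⟩ _ ⟨-, e', rfl⟩ h
    rw [hg, hg] at h
    rw [Subtype.ext h]
  refine (h2.image h3).mono ?_
  rintro _ ⟨z, ⟨hz, e, rfl⟩, rfl⟩
  refine ⟨hz, ?_⟩
  rw [hg]
  exact e.2

open Helper53K9.PP in
/-- **Q1 and Q2.** (1) There are Hausdorff countably pracompact commutative paratopological groups
`G`, `H` such that `G × H` is not countably pracompact. (2) For every index set with at least two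
elements there is a family of Hausdorff countably pracompact commutative paratopological groups
whose product is not countably pracompact. -/
theorem result :
    (∃ (G H : Type) (_ : CommGroup G) (_ : CommGroup H) (_ : TopologicalSpace G)
      (_ : TopologicalSpace H), ContinuousMul G ∧ ContinuousMul H ∧ T2Space G ∧ T2Space H ∧
        CountablyPracompact G ∧ CountablyPracompact H ∧ ¬ CountablyPracompact (G × H)) ∧
    ∀ (ι : Type*) [Nontrivial ι], ∃ (K : ι → Type) (_ : ∀ i, CommGroup (K i))
      (_ : ∀ i, TopologicalSpace (K i)),
      (∀ i, ContinuousMul (K i) ∧ T2Space (K i) ∧ CountablyPracompact (K i)) ∧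
        ¬ CountablyPracompact (∀ i, K i) := by
  classical
  obtain ⟨y, hlim, hinj, hkill⟩ := exists_family
  have hcp : ∀ β, CountablyPracompact (Multiplicative (Gr (y β))) := fun β => cprac_Gr (hlim β)
  have hT2 : ∀ β, T2Space (Multiplicative (Gr (y β))) := fun β => t2_Gr (y β) (hinj β)
  have hmul : ∀ β, ContinuousMul (Multiplicative (Gr (y β))) := fun β => inferInstance
  have hnot : ¬ CountablyPracompact (Multiplicative (Gr (y true)) ×
      Multiplicative (Gr (y false))) := not_cprac hkill
  refine ⟨⟨Multiplicative (Gr (y true)), Multiplicative (Gr (y false)), inferInstance,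
    inferInstance, inferInstance, inferInstance, hmul _, hmul _, hT2 _, hT2 _, hcp _, hcp _,
    hnot⟩, ?_⟩
  intro ι hι
  obtain ⟨i₀, i₁, hne⟩ := exists_pair_ne ι
  let z : ι → Bool := fun i => decide (i = i₀)
  refine ⟨fun i => Multiplicative (Gr (y (z i))), fun i => inferInstance, fun i => inferInstance,
    fun i => ⟨hmul _, hT2 _, hcp _⟩, fun h => ?_⟩
  have h1 := h.image (fun g => (g i₀, g i₁)) ((continuous_apply i₀).prodMk (continuous_apply i₁)) (by
    rintro ⟨a, b⟩
    refine ⟨Function.update (Function.update (fun _ => 1) i₁ b) i₀ a, ?_⟩
    simp [Function.update_of_ne hne.symm])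
  have h2 : z i₀ = true := by simp [z]
  have h3 : z i₁ = false := by simp [z, hne.symm]
  rw [h2, h3] at h1
  exact hnot h1

end Pool.Agent.Results.MP_6a90e0_al.ProductsFail
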